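import Pool.Agent.W251.EX.Defs
import Pool.Agent.W681.EC.FIN1

/-! Project EX, part FINX: logarithmic means over the pairs. -/

set_option autoImplicit false

namespace Pool.Agent.W935.EX

open Finset Filter
open Pool.Agent.H376R2.MR
open Pool.Agent.W78.GA
open Pool.Agent.W78.EC
open Pool.Agent.W681.EC (cnt_sum sum_inv_le sum_inv_sq_le W_bound mem_SP card1 card2)

open scoped Classical in
/-- the real version of `AG` -/
noncomputable def AR (D : ℕ → ℕ → ℝ) (s : ℝ) (X : ℝ) : ℝ :=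
  ∑ e ∈ (dedge 0 1 X).filter (fun e => 0 < ip e.1 e.2 ∧ s * X < (nm e.1 : ℝ) ∧
    (nm e.1 : ℝ) ≤ 1 * X ∧ s * X < (nm e.2 : ℝ) ∧ (nm e.2 : ℝ) ≤ 1 * X), D (nm e.1) (nm e.2)

open scoped Classical in
theorem AA_eq (h2 : S_CORR) (D : ℕ → ℕ → ℝ) (s : ℝ) (X : ℕ) (hX : 1 ≤ X) :
    AR D s X = 4 * ∑ p ∈ (SP X).filter (fun p => p ≠ (1, 1)),
      if s * X < p.1 ∧ s * X < p.2 then D p.1 p.2 else 0 := by
  have h := h2 X (fun a b => if s * X < a ∧ s * X < b then D a b else 0)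
    (by exact_mod_cast hX)
  rw [Nat.floor_natCast] at h
  rw [← h]
  unfold AR
  simp only [Finset.sum_filter]
  apply sum_congr rfl
  intro e he
  have hD : (0 : ℤ) ^ 2 < 4 * 1 := by norm_num
  unfold dedge at he
  rw [mem_filter, mem_product, mem_pball hD, mem_pball hD] at he
  have e1 : (nm e.1 : ℝ) ≤ 1 * (X : ℝ) := by rw [one_mul]; exact he.1.1.2
  have e2 : (nm e.2 : ℝ) ≤ 1 * (X : ℝ) := by rw [one_mul]; exact he.1.2.2
  by_cases c1 : 0 < ip e.1 e.2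
  · by_cases c2 : s * X < nm e.1 ∧ s * X < nm e.2
    · rw [if_pos ⟨c1, c2.1, e1, c2.2, e2⟩, if_pos c1, if_pos c2]
    · rw [if_neg (fun h3 => c2 ⟨h3.2.1, h3.2.2.2.1⟩), if_pos c1, if_neg c2]
  · rw [if_neg (fun h3 => c1 h3.1), if_neg c1]

open scoped Classical in
theorem main_eq (h2 : S_CORR) (D : ℕ → ℕ → ℝ) (s : ℝ) (N : ℕ) :
    ∑ X ∈ Icc 1 N, 1 / (X : ℝ) ^ 2 * AR D s X =
      4 * ∑ p ∈ (SP N).filter (fun p => p ≠ (1, 1)), D p.1 p.2 *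
        ∑ X ∈ Icc 1 N, if (p.1 ≤ X ∧ p.2 ≤ X) ∧ (s * X < p.1 ∧ s * X < p.2) then
          1 / (X : ℝ) ^ 2 else 0 := by
  have h1 : ∀ X ∈ Icc 1 N, 1 / (X : ℝ) ^ 2 * AR D s X =
      4 * ∑ p ∈ (SP N).filter (fun p => p ≠ (1, 1)), D p.1 p.2 *
        if (p.1 ≤ X ∧ p.2 ≤ X) ∧ (s * X < p.1 ∧ s * X < p.2) then 1 / (X : ℝ) ^ 2 else 0 := by
    intro X hX
    rw [mem_Icc] at hX
    rw [AA_eq h2 D s X hX.1]
    have e1 : (SP X).filter (fun p => p ≠ (1, 1)) =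
        ((SP N).filter (fun p => p ≠ (1, 1))).filter (fun p => p.1 ≤ X ∧ p.2 ≤ X) := by
      ext p
      simp only [mem_filter, mem_SP]
      constructor
      · rintro ⟨⟨⟨⟨h3, h4⟩, ⟨h5, h6⟩⟩, h7⟩, h8⟩
        exact ⟨⟨⟨⟨⟨h3, h4.trans hX.2⟩, ⟨h5, h6.trans hX.2⟩⟩, h7⟩, h8⟩, h4, h6⟩
      · rintro ⟨⟨⟨⟨⟨h3, h4⟩, ⟨h5, h6⟩⟩, h7⟩, h8⟩, h9, h10⟩
        exact ⟨⟨⟨⟨h3, h9⟩, ⟨h5, h10⟩⟩, h7⟩, h8⟩
    rw [e1, Finset.sum_filter, mul_left_comm, Finset.mul_sum]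
    congr 1
    apply sum_congr rfl
    intro p _
    by_cases c1 : p.1 ≤ X ∧ p.2 ≤ X
    · by_cases c2 : s * X < p.1 ∧ s * X < p.2
      · rw [if_pos c1, if_pos c2, if_pos ⟨c1, c2⟩]
        ring
      · rw [if_pos c1, if_neg c2, if_neg (fun h => c2 h.2)]
        ring
    · rw [if_neg c1, if_neg (fun h => c1 h.1)]
      ring
  rw [sum_congr rfl h1, ← Finset.mul_sum, Finset.sum_comm]
  congr 1
  apply sum_congr rfl
  intro p _
  rw [Finset.mul_sum]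

open scoped Classical in
theorem key (h2 : S_CORR) (C : ℝ) (hC : ∀ m M : ℕ, 1 ≤ m → m ≤ M →
    ((((Icc 1 m) ×ˢ (Icc 1 M)).filter (fun p => ∃ n : ℕ, p.1 * p.2 = n ^ 2 + 1)).card : ℝ) ≤
    C * Real.sqrt (m * M)) (hC0 : 0 ≤ C) (t : ℝ) (ht0 : 0 < t) (ht1 : t ≤ 1) (D : ℕ → ℕ → ℝ)
    (hD1 : ∀ a b, |D a b| ≤ 1) (N : ℕ)
    (hN : 1 ≤ N) :
    |∑ p ∈ SP N, D p.1 p.2 * (1 / ((max p.1 p.2 : ℕ) : ℝ))| ≤
      1 / 4 * |∑ X ∈ Icc 1 N, 1 / (X : ℝ) ^ 2 * AR D (t ^ 4) X| +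
      (1 + 3 * C + 6 * C * t * (1 + Real.log N)) := by
  have hNp : (0 : ℝ) < N := by exact_mod_cast hN
  have hθ0 : 0 < t ^ 2 := by positivity
  have hθ1 : t ^ 2 ≤ 1 := pow_le_one₀ ht0.le ht1
  have hsθ : t ^ 4 ≤ t ^ 2 := pow_le_pow_of_le_one ht0.le ht1 (by norm_num)
  set W : ℕ × ℕ → ℝ := fun p => ∑ X ∈ Icc 1 N,
    if (p.1 ≤ X ∧ p.2 ≤ X) ∧ (t ^ 4 * X < p.1 ∧ t ^ 4 * X < p.2) then
      1 / (X : ℝ) ^ 2 else 0 with hW
  set E : ℕ × ℕ → ℝ := fun p => 1 / ((max p.1 p.2 : ℕ) : ℝ) ^ 2 + 1 / (N : ℝ) +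
      (if ((min p.1 p.2 : ℕ) : ℝ) ≤ t ^ 2 * (max p.1 p.2 : ℕ) then
        2 * (1 / ((max p.1 p.2 : ℕ) : ℝ))
        else 2 * (t ^ 4 / t ^ 2) * (1 / ((max p.1 p.2 : ℕ) : ℝ))) with hE
  have hEn : ∀ p, 0 ≤ E p := by
    intro p
    rw [hE]
    have : 0 ≤ (if ((min p.1 p.2 : ℕ) : ℝ) ≤ t ^ 2 * (max p.1 p.2 : ℕ) then
        2 * (1 / ((max p.1 p.2 : ℕ) : ℝ))
        else 2 * (t ^ 4 / t ^ 2) * (1 / ((max p.1 p.2 : ℕ) : ℝ))) := by
      split_ifs <;> positivity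
    positivity
  have hWE : ∀ p ∈ SP N, |W p - 1 / ((max p.1 p.2 : ℕ) : ℝ)| ≤ E p := by
    intro p hp
    rw [mem_SP] at hp
    exact W_bound (t ^ 4) (t ^ 2) (by positivity) hsθ N p.1 p.2 hp.1.1.1 hp.1.1.2 hp.1.2.2
  -- the sum of the errors
  have hM : ∀ p ∈ SP N, 1 ≤ max p.1 p.2 ∧ max p.1 p.2 ≤ N := by
    intro p hp
    rw [mem_SP] at hp
    exact ⟨le_trans hp.1.1.1 (le_max_left _ _), max_le hp.1.1.2 hp.1.2.2⟩
  have a1 : ∀ n : ℕ, 1 ≤ n → 1 / ((n + 1 : ℕ) : ℝ) ≤ 1 / (n : ℝ) := by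
    intro n hn
    have : (0 : ℝ) < n := by exact_mod_cast hn
    push_cast
    exact one_div_le_one_div_of_le this (by linarith)
  have a2 : ∀ n : ℕ, 1 ≤ n → 1 / ((n + 1 : ℕ) : ℝ) ^ 2 ≤ 1 / (n : ℝ) ^ 2 := by
    intro n hn
    have : (0 : ℝ) < n := by exact_mod_cast hn
    push_cast
    exact one_div_le_one_div_of_le (by positivity) (by nlinarith)
  have s1 : ∑ p ∈ SP N, 1 / ((max p.1 p.2 : ℕ) : ℝ) ^ 2 ≤ C * 2 := by
    refine le_trans (cnt_sum (SP N) (fun p => max p.1 p.2) (fun n => 1 / (n : ℝ) ^ 2) C N hN a2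
      (fun n _ => by positivity) hM (fun X hX => card1 C hC N X hX)) ?_
    exact mul_le_mul_of_nonneg_left (sum_inv_sq_le N) hC0
  have s2 : ∑ p ∈ SP N, 1 / ((max p.1 p.2 : ℕ) : ℝ) ≤ C * (1 + Real.log N) := by
    refine le_trans (cnt_sum (SP N) (fun p => max p.1 p.2) (fun n => 1 / (n : ℝ)) C N hN a1
      (fun n _ => by positivity) hM (fun X hX => card1 C hC N X hX)) ?_
    exact mul_le_mul_of_nonneg_left (sum_inv_le N) hC0
  have s3 : ∑ p ∈ (SP N).filter (fun p => ((min p.1 p.2 : ℕ) : ℝ) ≤ t ^ 2 * (max p.1 p.2 : ℕ)),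
      1 / ((max p.1 p.2 : ℕ) : ℝ) ≤ 2 * C * t * (1 + Real.log N) := by
    have hc3 : ∀ X : ℕ, 1 ≤ X → ((((SP N).filter (fun p => ((min p.1 p.2 : ℕ) : ℝ) ≤
        t ^ 2 * (max p.1 p.2 : ℕ))).filter (fun p => max p.1 p.2 ≤ X)).card : ℝ) ≤
        2 * C * t * X := by
      intro X hX
      have h4 := card2 C hC hC0 (t ^ 2) hθ0 hθ1 N X hX
      rw [Real.sqrt_sq ht0.le] at h4
      exact h4
    have hM3 : ∀ p ∈ (SP N).filter (fun p => ((min p.1 p.2 : ℕ) : ℝ) ≤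
        t ^ 2 * (max p.1 p.2 : ℕ)), 1 ≤ max p.1 p.2 ∧ max p.1 p.2 ≤ N :=
      fun p hp => hM p (mem_filter.1 hp).1
    have h5 := cnt_sum ((SP N).filter (fun p => ((min p.1 p.2 : ℕ) : ℝ) ≤
      t ^ 2 * (max p.1 p.2 : ℕ))) (fun p : ℕ × ℕ => max p.1 p.2) (fun n => 1 / (n : ℝ))
      (2 * C * t) N hN a1 (fun n _ => by positivity) hM3 hc3
    have h6 : 2 * C * t * ∑ X ∈ Icc 1 N, 1 / (X : ℝ) ≤ 2 * C * t * (1 + Real.log N) :=
      mul_le_mul_of_nonneg_left (sum_inv_le N) (by positivity)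
    exact le_trans h5 h6
  have s4 : ∑ p ∈ SP N, 1 / (N : ℝ) ≤ C := by
    rw [Finset.sum_const, nsmul_eq_mul]
    have h3 := card1 C hC N N hN
    have e : (SP N).filter (fun p => max p.1 p.2 ≤ N) = SP N := by
      rw [Finset.filter_eq_self]
      exact fun p hp => (hM p hp).2
    rw [e] at h3
    rw [mul_one_div, div_le_iff₀ hNp]
    exact h3
  have hq : t ^ 4 / t ^ 2 = t ^ 2 := by
    field_simp
  have s5 : ∑ p ∈ SP N, (if ((min p.1 p.2 : ℕ) : ℝ) ≤ t ^ 2 * (max p.1 p.2 : ℕ) then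
        2 * (1 / ((max p.1 p.2 : ℕ) : ℝ))
        else 2 * (t ^ 4 / t ^ 2) * (1 / ((max p.1 p.2 : ℕ) : ℝ))) ≤
      2 * (2 * C * t * (1 + Real.log N)) + 2 * t ^ 2 * (C * (1 + Real.log N)) := by
    have e1 : ∀ p ∈ SP N, (if ((min p.1 p.2 : ℕ) : ℝ) ≤ t ^ 2 * (max p.1 p.2 : ℕ) then
        2 * (1 / ((max p.1 p.2 : ℕ) : ℝ))
        else 2 * (t ^ 4 / t ^ 2) * (1 / ((max p.1 p.2 : ℕ) : ℝ))) ≤
        2 * (if ((min p.1 p.2 : ℕ) : ℝ) ≤ t ^ 2 * (max p.1 p.2 : ℕ) then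
          1 / ((max p.1 p.2 : ℕ) : ℝ) else 0) + 2 * t ^ 2 * (1 / ((max p.1 p.2 : ℕ) : ℝ)) := by
      intro p _
      rw [hq]
      have : 0 ≤ 2 * t ^ 2 * (1 / ((max p.1 p.2 : ℕ) : ℝ)) := by positivity
      split_ifs
      · linarith
      · linarith
    refine le_trans (Finset.sum_le_sum e1) ?_
    rw [Finset.sum_add_distrib, ← Finset.mul_sum, ← Finset.mul_sum, ← Finset.sum_filter]
    have : 2 * t ^ 2 * ∑ p ∈ SP N, 1 / ((max p.1 p.2 : ℕ) : ℝ) ≤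
        2 * t ^ 2 * (C * (1 + Real.log N)) := mul_le_mul_of_nonneg_left s2 (by positivity)
    linarith
  have hlog : 0 ≤ Real.log N := Real.log_nonneg (by exact_mod_cast hN)
  have s6 : ∑ p ∈ SP N, E p ≤ 3 * C + 6 * C * t * (1 + Real.log N) := by
    rw [hE, Finset.sum_add_distrib, Finset.sum_add_distrib]
    have h3 : t ^ 2 ≤ t := by nlinarith
    have h4 : 2 * t ^ 2 * (C * (1 + Real.log N)) ≤ 2 * t * (C * (1 + Real.log N)) := by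
      apply mul_le_mul_of_nonneg_right (by linarith)
      positivity
    linarith
  -- the comparison
  set R := (SP N).filter (fun p => p ≠ (1, 1)) with hR
  have b1 : ∑ X ∈ Icc 1 N, 1 / (X : ℝ) ^ 2 * AR D (t ^ 4) X =
      4 * ∑ p ∈ R, D p.1 p.2 * W p := main_eq h2 D (t ^ 4) N
  have b2 : |∑ p ∈ R, D p.1 p.2 * (1 / ((max p.1 p.2 : ℕ) : ℝ)) -
      ∑ p ∈ R, D p.1 p.2 * W p| ≤ ∑ p ∈ SP N, E p := by
    rw [← Finset.sum_sub_distrib]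
    refine le_trans (Finset.abs_sum_le_sum_abs _ _) ?_
    refine le_trans ?_ (Finset.sum_le_sum_of_subset_of_nonneg (s := R) (t := SP N)
      (hR ▸ Finset.filter_subset (fun p : ℕ × ℕ => p ≠ (1, 1)) (SP N)) (fun p _ _ => hEn p))
    apply Finset.sum_le_sum
    intro p hp
    rw [← mul_sub, abs_mul, abs_sub_comm]
    exact (mul_le_of_le_one_left (abs_nonneg _) (hD1 _ _)).trans (hWE p (mem_filter.1 hp).1)
  have b3 : |∑ p ∈ SP N, D p.1 p.2 * (1 / ((max p.1 p.2 : ℕ) : ℝ)) -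
      ∑ p ∈ R, D p.1 p.2 * (1 / ((max p.1 p.2 : ℕ) : ℝ))| ≤ 1 := by
    have e1 := Finset.sum_filter_add_sum_filter_not (SP N) (fun p : ℕ × ℕ => p ≠ (1, 1))
      (fun p : ℕ × ℕ => D p.1 p.2 * (1 / ((max p.1 p.2 : ℕ) : ℝ)))
    rw [← e1, ← hR, add_sub_cancel_left]
    have e2 : (SP N).filter (fun p : ℕ × ℕ => ¬ (p ≠ (1, 1))) ⊆ {(1, 1)} := by
      intro p hp
      rw [mem_filter, not_not] at hp
      exact mem_singleton.2 hp.2
    refine le_trans (Finset.abs_sum_le_sum_abs _ _) ?_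
    refine le_trans (Finset.sum_le_sum_of_subset_of_nonneg e2 (fun p _ _ => abs_nonneg _)) ?_
    rw [Finset.sum_singleton, abs_mul]
    refine (mul_le_of_le_one_left (abs_nonneg _) (hD1 _ _)).trans ?_
    norm_num
  have b4 : |∑ p ∈ R, D p.1 p.2 * W p| =
      1 / 4 * |∑ X ∈ Icc 1 N, 1 / (X : ℝ) ^ 2 * AR D (t ^ 4) X| := by
    rw [b1, abs_mul, abs_of_pos (by norm_num : (0 : ℝ) < 4)]
    ring
  have b5 := abs_le.1 b2
  have b6 := abs_le.1 b3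
  rw [← b4, abs_le]
  have b7 := neg_abs_le (∑ p ∈ R, D p.1 p.2 * W p)
  have b8 := le_abs_self (∑ p ∈ R, D p.1 p.2 * W p)
  constructor
  · linarith [b5.1, b5.2, b6.1, b6.2]
  · linarith [b5.1, b5.2, b6.1, b6.2]


theorem AG_re (F : ℕ → ℕ → ℂ) (s X : ℝ) :
    (Pool.Agent.W251.EX.AG (fun e => F (nm e.1) (nm e.2)) s 1 s 1 X).re =
      AR (fun a b => (F a b).re) s X := by
  unfold Pool.Agent.W251.EX.AG AR
  rw [Complex.re_sum]

theorem AG_im (F : ℕ → ℕ → ℂ) (s X : ℝ) :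
    (Pool.Agent.W251.EX.AG (fun e => F (nm e.1) (nm e.2)) s 1 s 1 X).im =
      AR (fun a b => (F a b).im) s X := by
  unfold Pool.Agent.W251.EX.AG AR
  rw [Complex.im_sum]

theorem finx (h2 : S_CORR) (h3 : S_SCNT) : Pool.Agent.W251.EX.S_FINX := by
  intro F hF hyp
  obtain ⟨C, hC⟩ := h3
  have hC0 : 0 ≤ C := by
    have h := hC 1 1 le_rfl le_rfl
    have h4 : (0 : ℝ) ≤ C * Real.sqrt ((1 : ℕ) * (1 : ℕ)) := le_trans (Nat.cast_nonneg _) h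
    simpa using h4
  rw [Metric.tendsto_atTop]
  intro ε hε
  set t : ℝ := min (1 / 2) (ε / (48 * (C + 1))) with ht
  have ht0 : 0 < t := lt_min (by norm_num) (by positivity)
  have hlt : t < 1 := lt_of_le_of_lt (min_le_left _ _) (by norm_num)
  have ht1 : t ≤ 1 := hlt.le
  have ht2 : 12 * C * t ≤ ε / 4 := by
    have h5 : t ≤ ε / (48 * (C + 1)) := min_le_right _ _
    rw [le_div_iff₀ (by positivity)] at h5
    nlinarith
  obtain ⟨N₀, hN₀⟩ := hyp (t ^ 4) (by positivity) (pow_lt_one₀ ht0.le hlt (by norm_num)) ε hε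
  have hlim : Tendsto (fun N : ℕ => Real.log N) atTop atTop :=
    Real.tendsto_log_atTop.comp tendsto_natCast_atTop_atTop
  obtain ⟨N₁, hN₁⟩ := (hlim.eventually_gt_atTop
    ((1 + 3 * C + 6 * C * t) * 8 / ε)).exists_forall_of_atTop
  refine ⟨max (max N₀ N₁) 2, fun N hN => ?_⟩
  have g1 : N₀ ≤ N := le_trans (le_trans (le_max_left _ _) (le_max_left _ _)) hN
  have g2 : N₁ ≤ N := le_trans (le_trans (le_max_right _ _) (le_max_left _ _)) hN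
  have g3 : 2 ≤ N := le_trans (le_max_right _ _) hN
  have g4 := hN₁ N g2
  have g5 := hN₀ N g1
  have hl : 0 < Real.log N := Real.log_pos (by exact_mod_cast g3)
  have kr := key h2 C hC hC0 t ht0 ht1 (fun a b => (F a b).re)
    (fun a b => (Complex.abs_re_le_norm _).trans (hF a b)) N (by omega)
  have ki := key h2 C hC hC0 t ht0 ht1 (fun a b => (F a b).im)
    (fun a b => (Complex.abs_im_le_norm _).trans (hF a b)) N (by omega)
  have r1 : |∑ X ∈ Icc 1 N, 1 / (X : ℝ) ^ 2 * AR (fun a b => (F a b).re) (t ^ 4) X| ≤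
      ε * Real.log N := by
    refine le_trans (le_of_eq ?_) ((Complex.abs_re_le_norm _).trans g5)
    congr 1
    rw [Complex.re_sum]
    refine sum_congr rfl fun X _ => ?_
    rw [Complex.re_ofReal_mul, AG_re]
  have r2 : |∑ X ∈ Icc 1 N, 1 / (X : ℝ) ^ 2 * AR (fun a b => (F a b).im) (t ^ 4) X| ≤
      ε * Real.log N := by
    refine le_trans (le_of_eq ?_) ((Complex.abs_im_le_norm _).trans g5)
    congr 1
    rw [Complex.im_sum]
    refine sum_congr rfl fun X _ => ?_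
    rw [Complex.im_ofReal_mul, AG_im]
  have n1 : ‖∑ p ∈ SP N, F p.1 p.2 / ((max p.1 p.2 : ℕ) : ℂ)‖ ≤
      |∑ p ∈ SP N, (F p.1 p.2).re * (1 / ((max p.1 p.2 : ℕ) : ℝ))| +
      |∑ p ∈ SP N, (F p.1 p.2).im * (1 / ((max p.1 p.2 : ℕ) : ℝ))| := by
    refine (Complex.norm_le_abs_re_add_abs_im _).trans (le_of_eq ?_)
    rw [Complex.re_sum, Complex.im_sum]
    congr 1
    · congr 1
      refine sum_congr rfl fun p _ => ?_
      rw [Complex.div_natCast_re, mul_one_div]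
    · congr 1
      refine sum_congr rfl fun p _ => ?_
      rw [Complex.div_natCast_im, mul_one_div]
  rw [div_lt_iff₀ hε] at g4
  rw [dist_zero_right, norm_div, Complex.norm_real, Real.norm_eq_abs, abs_of_pos hl,
    div_lt_iff₀ hl]
  have g8 : 12 * C * t * Real.log N ≤ ε / 4 * Real.log N :=
    mul_le_mul_of_nonneg_right ht2 hl.le
  nlinarith

end Pool.Agent.W935.EX
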