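import Pool.Agent.W935.EX.SPS
import Pool.Agent.W591.GA.Equ
import Pool.Agent.W29.GA.Mult
import Pool.Agent.W898.GA.Large

/-! Project EX, part 4, EV-SPS: the lower bound without hypotheses (helper935). -/

set_option autoImplicit false

namespace Pool.Agent.W935.EX

theorem sps : Pool.Agent.W251.EX.S_SPS :=
  sps_of (Pool.Agent.W591.GA.equ_of hD01)
    (Pool.Agent.W898.GA.large_of hD01 (Pool.Agent.W29.GA.mult hD01))

end Pool.Agent.W935.EX
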