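import Pool.Agent.W251.EX.Defs4
import Pool.Agent.W591.GA.Sqb
import Pool.Agent.W125.EX.SLOWQ

/-!
Project EX (helper251), part 4, EV-SPS, by helper935: lower bound for the number of pairs `(d, d')`
with `d d' = n^2+1` squarefree and `n` in a residue class.
-/

set_option autoImplicit false

namespace Pool.Agent.W935.EX

open Finset
open Pool.Agent.W78.GA (Qd nm prim dt ip dedge pball NN mem_pball nm_cast ip_dt NN_eq S_EQU S_LARGE)
open Pool.Agent.W78.EC (SP)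
open Pool.Agent.W251.EX
open Pool.Agent.W125.EX (root inj B card_B)
open Pool.Agent.W591.GA (rd rd_dvd classes card_le_classes tail_all)

lemma hD01 : (0 : ℤ) ^ 2 < 4 * 1 := by norm_num

/-! ### the residue class -/

lemma four_ndvd (n : ℕ) : ¬ 4 ∣ n ^ 2 + 1 := by
  intro h
  have h1 : (n ^ 2 + 1) % 4 = 0 := Nat.mod_eq_zero_of_dvd h
  have h2 : n % 4 < 4 := Nat.mod_lt _ (by norm_num)
  rw [Nat.add_mod, Nat.pow_mod] at h1
  generalize n % 4 = r at h1 h2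
  interval_cases r <;> omega

/-- one step of the choice of the residue class -/
lemma step {m n l : ℕ} (hl : l.Prime) (h : ¬ l ^ 2 ∣ m) :
    ∃ k : ℕ, ¬ l ^ 2 ∣ (n + k * m) ^ 2 + 1 := by
  by_contra hcon
  push Not at hcon
  have h0' : l ^ 2 ∣ n ^ 2 + 1 := by
    have := hcon 0
    rwa [zero_mul, add_zero] at this
  have h0 : ((l : ℤ) ^ 2) ∣ (n : ℤ) ^ 2 + 1 := by exact_mod_cast h0'
  have h1 : ((l : ℤ) ^ 2) ∣ ((n : ℤ) + m) ^ 2 + 1 := by
    have := hcon 1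
    rw [one_mul] at this
    exact_mod_cast this
  have h2 : ((l : ℤ) ^ 2) ∣ ((n : ℤ) + 2 * m) ^ 2 + 1 := by
    have := hcon 2
    exact_mod_cast this
  have hp := Nat.prime_iff_prime_int.1 hl
  have hl2 : l ≠ 2 := by
    rintro rfl
    exact four_ndvd n h0'
  have hodd : ¬ (l : ℤ) ∣ 2 := by
    intro hd
    have : l ∣ 2 := by exact_mod_cast hd
    exact hl2 ((Nat.prime_dvd_prime_iff_eq hl Nat.prime_two).1 this)
  have hn : ¬ (l : ℤ) ∣ n := by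
    intro hd
    have e1 : (l : ℤ) ∣ (n : ℤ) ^ 2 + 1 := (dvd_pow_self _ two_ne_zero).trans h0
    have e2 : (l : ℤ) ∣ (n : ℤ) ^ 2 := hd.trans (dvd_pow_self _ two_ne_zero)
    have e3 : (l : ℤ) ∣ 1 := (dvd_add_right e2).1 e1
    exact hp.not_dvd_one e3
  have a1 : ((l : ℤ) ^ 2) ∣ m * (2 * n + m) := by
    have := dvd_sub h1 h0
    have e : ((n : ℤ) + m) ^ 2 + 1 - ((n : ℤ) ^ 2 + 1) = m * (2 * n + m) := by ring
    rwa [e] at this
  have a2 : ((l : ℤ) ^ 2) ∣ m * (2 * (2 * (n + m))) := by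
    have := dvd_sub h2 h0
    have e : ((n : ℤ) + 2 * m) ^ 2 + 1 - ((n : ℤ) ^ 2 + 1) = m * (2 * (2 * (n + m))) := by ring
    rwa [e] at this
  by_cases hm : (l : ℤ) ∣ m
  · obtain ⟨m', hm'⟩ := hm
    have hm0 : ¬ (l : ℤ) ∣ m' := by
      rintro ⟨m'', rfl⟩
      apply h
      have : ((l : ℤ) ^ 2) ∣ m := ⟨m'', by rw [hm']; ring⟩
      exact_mod_cast this
    rw [hm'] at a1
    have hl0 : (l : ℤ) ≠ 0 := hp.ne_zero
    have a3 : (l : ℤ) ∣ m' * (2 * n + l * m') := by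
      have e : (l : ℤ) * m' * (2 * n + l * m') = l * (m' * (2 * n + l * m')) := by ring
      rw [e, pow_two] at a1
      exact (mul_dvd_mul_iff_left hl0).1 a1
    have a4 := (hp.dvd_or_dvd a3).resolve_left hm0
    have a5 : (l : ℤ) ∣ 2 * n := (dvd_add_left (dvd_mul_right _ _)).1 a4
    rcases hp.dvd_or_dvd a5 with h | h
    · exact hodd h
    · exact hn h
  · have hc : IsCoprime ((l : ℤ) ^ 2) m := IsCoprime.pow_left (hp.coprime_iff_not_dvd.2 hm)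
    have b1 := hc.dvd_of_dvd_mul_left a1
    have b2 := hc.dvd_of_dvd_mul_left a2
    have hc2 : IsCoprime ((l : ℤ) ^ 2) 2 := IsCoprime.pow_left (hp.coprime_iff_not_dvd.2 hodd)
    have b3 := hc2.dvd_of_dvd_mul_left (hc2.dvd_of_dvd_mul_left b2)
    have b4 : ((l : ℤ) ^ 2) ∣ n := by
      have := dvd_sub b1 b3
      have e : (2 * (n : ℤ) + m) - (n + m) = n := by ring
      rwa [e] at this
    exact hn ((dvd_pow_self _ two_ne_zero).trans b4)

lemma dvd_shift {d m n k : ℕ} (h : d ∣ m) : d ∣ (n + k * m) ^ 2 + 1 ↔ d ∣ n ^ 2 + 1 := by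
  have e : (n + k * m) ^ 2 + 1 = m * (k * (2 * n + k * m)) + (n ^ 2 + 1) := by ring
  rw [e]
  exact Nat.dvd_add_right (h.mul_right _)

/-- the residue class -/
lemma choice (q a : ℕ) (h : ∀ l : ℕ, l.Prime → l ^ 2 ∣ q → ¬ l ^ 2 ∣ a ^ 2 + 1)
    (P : ℕ) : ∃ n : ℕ, n ≡ a [MOD q] ∧ ∀ l : ℕ, l.Prime → l ≤ P → ¬ l ^ 2 ∣ n ^ 2 + 1 := by
  induction P with
  | zero =>
    refine ⟨a, rfl, fun l hl h0 => ?_⟩
    rw [Nat.le_zero.1 h0] at hl
    exact absurd hl Nat.not_prime_zero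
  | succ P ih =>
    obtain ⟨n, h1, h2⟩ := ih
    by_cases hp : (P + 1).Prime
    · by_cases hs : (P + 1) ^ 2 ∣ q * P.factorial ^ 2
      · refine ⟨n, h1, fun l hl hle => ?_⟩
        rcases Nat.lt_or_ge l (P + 1) with hlt | hge
        · exact h2 l hl (by omega)
        · obtain rfl : l = P + 1 := by omega
          have hc : Nat.Coprime ((P + 1) ^ 2) (P.factorial ^ 2) :=
            Nat.Coprime.pow 2 2 ((Nat.Prime.coprime_iff_not_dvd hp).2 fun h' => by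
              have := (Nat.Prime.dvd_factorial hp).1 h'
              omega)
          have hq := hc.dvd_of_dvd_mul_right hs
          have h3 : n ^ 2 + 1 ≡ a ^ 2 + 1 [MOD (P + 1) ^ 2] :=
            ((h1.of_dvd hq).pow 2).add_right 1
          intro h4
          exact h _ hp hq ((h3.dvd_iff dvd_rfl).1 h4)
      · obtain ⟨k, hk⟩ := step (n := n) hp hs
        refine ⟨n + k * (q * P.factorial ^ 2), ?_, fun l hl hle => ?_⟩
        · have : n + k * (q * P.factorial ^ 2) = n + q * (k * P.factorial ^ 2) := by ring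
          rw [this]
          have h3 : n + q * (k * P.factorial ^ 2) ≡ n + 0 [MOD q] :=
            Nat.ModEq.add_left n ((Nat.modEq_zero_iff_dvd).2 (dvd_mul_right _ _))
          rw [add_zero] at h3
          exact h3.trans h1
        · rcases Nat.lt_or_ge l (P + 1) with hlt | hge
          · have h3 : l ^ 2 ∣ q * P.factorial ^ 2 :=
              (pow_dvd_pow_of_dvd (Nat.dvd_factorial hl.pos (by omega)) 2).mul_left _
            rw [dvd_shift h3]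
            exact h2 l hl (by omega)
          · obtain rfl : l = P + 1 := by omega
            exact hk
    · refine ⟨n, h1, fun l hl hle => h2 l hl ?_⟩
      have : l ≠ P + 1 := fun e => hp (e ▸ hl)
      omega

/-! ### the vectors -/

/-- the vector of a point -/
def vv (M : ℕ) (p : ℕ × ℕ) : Qd 0 1 := ⟨1 + M * p.1, M * p.2⟩

lemma nm_vv (M : ℕ) (p : ℕ × ℕ) : nm (vv M p) = (1 + M * p.1) ^ 2 + (M * p.2) ^ 2 := by
  have h := nm_cast hD01 (vv M p)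
  have e : (((1 + M * p.1) ^ 2 + (M * p.2) ^ 2 : ℕ) : ℤ) = (nm (vv M p) : ℤ) := by
    rw [h]
    simp only [vv]
    push_cast
    ring
  exact_mod_cast e.symm

lemma vv_inj {M : ℕ} (hM : 1 ≤ M) {p p' : ℕ × ℕ} (h : vv M p = vv M p') : p = p' := by
  have h1 := congrArg (fun z : Qd 0 1 => z.re) h
  have h2 := congrArg (fun z : Qd 0 1 => z.im) h
  simp only [vv] at h1 h2
  have h3 : M * p.1 = M * p'.1 := by
    have : (M : ℤ) * p.1 = M * p'.1 := by linarith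
    exact_mod_cast this
  have h4 : M * p.2 = M * p'.2 := by exact_mod_cast h2
  exact Prod.ext (Nat.eq_of_mul_eq_mul_left hM h3) (Nat.eq_of_mul_eq_mul_left hM h4)

lemma prim_of_dt {v w : Qd 0 1} (h : dt v w = 1) : prim v ∧ prim w := by
  unfold dt at h
  constructor
  · have h1 : ((Int.gcd v.re v.im : ℕ) : ℤ) ∣ v.re * w.im - v.im * w.re :=
      dvd_sub ((Int.gcd_dvd_left ..).mul_right _) ((Int.gcd_dvd_right ..).mul_right _)
    rw [h] at h1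
    unfold prim
    have h2 : Int.gcd v.re v.im ∣ 1 := by exact_mod_cast h1
    exact Nat.dvd_one.1 h2
  · have h1 : ((Int.gcd w.re w.im : ℕ) : ℤ) ∣ v.re * w.im - v.im * w.re :=
      dvd_sub ((Int.gcd_dvd_right ..).mul_left _) ((Int.gcd_dvd_left ..).mul_left _)
    rw [h] at h1
    unfold prim
    have h2 : Int.gcd w.re w.im ∣ 1 := by exact_mod_cast h1
    exact Nat.dvd_one.1 h2

lemma data (M n₀ : ℕ) (hM : 1 ≤ M) (p : ℕ × ℕ) (hp2 : 1 ≤ p.2)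
    (hc : Nat.Coprime (1 + M * p.1) (M * p.2)) :
    ∃ (n : ℕ) (w : Qd 0 1), n ≤ nm (vv M p) * M ∧ n ≡ n₀ [MOD M] ∧
      dt (vv M p) w = 1 ∧ ip (vv M p) w = n ∧ (M : ℤ) ∣ w.re - n₀ ∧ (M : ℤ) ∣ w.im - 1 ∧
      (((1 + M * p.1) ^ 2 + (M * p.2) ^ 2 : ℕ) : ℤ) ∣ ((1 + M * p.1 : ℕ) : ℤ) + n * (M * p.2 : ℕ) := by
  have hcop : Nat.Coprime ((1 + M * p.1) ^ 2 + (M * p.2) ^ 2) M := by
    have e : (1 + M * p.1) ^ 2 + (M * p.2) ^ 2 =
        1 + M * (2 * p.1 + M * p.1 ^ 2 + M * p.2 ^ 2) := by ring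
    rw [e]
    exact (Nat.coprime_add_mul_left_left 1 M _).2 (Nat.coprime_one_left M)
  obtain ⟨n, h1, h2, h3, h4, h5⟩ := root M n₀ (1 + M * p.1) (M * p.2) hM (by omega)
    (Nat.mul_pos hM hp2) hc hcop
  have h5' := h5
  obtain ⟨d, hd⟩ : ∃ d : ℤ, d = (1 + (M : ℤ) * p.1) ^ 2 + ((M : ℤ) * p.2) ^ 2 := ⟨_, rfl⟩
  have hd' : (((1 + M * p.1) ^ 2 + (M * p.2) ^ 2 : ℕ) : ℤ) = d := by rw [hd]; push_cast; ring
  have h4' : d ∣ (n : ℤ) ^ 2 + 1 := by
    rw [← hd']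
    exact_mod_cast h4
  rw [hd'] at h5
  have hd0 : d ≠ 0 := by
    rw [hd]
    have : (0 : ℤ) < 1 + M * p.1 := by positivity
    positivity
  obtain ⟨b, hb⟩ := h5
  push_cast at hb
  have h6 : d ∣ (n : ℤ) * (1 + M * p.1) - M * p.2 := by
    have e : (n : ℤ) * (1 + M * p.1) - M * p.2 =
        n * ((1 + M * p.1) + n * (M * p.2)) - (n ^ 2 + 1) * (M * p.2) := by ring
    rw [e, hb]
    exact dvd_sub ((dvd_mul_right _ _).mul_left _) (h4'.mul_right _)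
  obtain ⟨a, ha⟩ := h6
  refine ⟨n, ⟨a, b⟩, ?_, h3, ?_, ?_, ?_, ?_, h5'⟩
  · rw [nm_vv]; exact h2
  · have : d * dt (vv M p) (⟨a, b⟩ : Qd 0 1) = d * 1 := by
      simp only [dt, vv]
      rw [mul_one]
      calc d * ((1 + (M : ℤ) * p.1) * b - M * p.2 * a) =
          (1 + (M : ℤ) * p.1) * (d * b) - M * p.2 * (d * a) := by ring
        _ = d := by rw [← hb, ← ha, hd]; ring
    exact mul_left_cancel₀ hd0 this
  · have : d * ip (vv M p) (⟨a, b⟩ : Qd 0 1) = d * n := by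
      simp only [ip, vv]
      calc d * ((1 + (M : ℤ) * p.1) * a + 0 * (M * p.2) * a + 1 * (M * p.2) * b) =
          (1 + (M : ℤ) * p.1) * (d * a) + M * p.2 * (d * b) := by ring
        _ = d * n := by rw [← hb, ← ha, hd]; ring
    exact mul_left_cancel₀ hd0 this
  · have h7 : (M : ℤ) ∣ (n : ℤ) - n₀ := Nat.modEq_iff_dvd.1 h3.symm
    have e : a - n₀ = M * (n * p.1 - p.2 - (2 * p.1 + M * p.1 ^ 2 + M * p.2 ^ 2) * a) +
        (n - n₀) := by
      have : d * a = a + M * (2 * p.1 + M * p.1 ^ 2 + M * p.2 ^ 2) * a := by rw [hd]; ring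
      linear_combination -ha - this
    show (M : ℤ) ∣ a - n₀
    rw [e]
    exact dvd_add (dvd_mul_right _ _) h7
  · have e : b - 1 = M * (p.1 + n * p.2 - (2 * p.1 + M * p.1 ^ 2 + M * p.2 ^ 2) * b) := by
      have : d * b = b + M * (2 * p.1 + M * p.1 ^ 2 + M * p.2 ^ 2) * b := by rw [hd]; ring
      linear_combination -hb - this
    show (M : ℤ) ∣ b - 1
    rw [e]
    exact dvd_mul_right _ _

/-! ### shears -/

/-- shear -/
def sh (t : ℤ) (e : Qd 0 1 × Qd 0 1) : Qd 0 1 × Qd 0 1 :=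
  (e.1, ⟨e.2.re + t * e.1.re, e.2.im + t * e.1.im⟩)

lemma dt_sh (t : ℤ) (e : Qd 0 1 × Qd 0 1) : dt (sh t e).1 (sh t e).2 = dt e.1 e.2 := by
  simp only [sh, dt]
  ring

lemma ip_sh (t : ℤ) (e : Qd 0 1 × Qd 0 1) :
    ip (sh t e).1 (sh t e).2 = ip e.1 e.2 + t * nm e.1 := by
  rw [nm_cast hD01]
  simp only [sh, ip]
  ring

lemma sh_sh (t : ℤ) (e : Qd 0 1 × Qd 0 1) : sh t (sh (-t) e) = e := by
  obtain ⟨v, w⟩ := e
  obtain ⟨a, b⟩ := w
  simp only [sh]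
  congr 2
  · ring
  · ring

lemma rd_sh {N : ℕ} {t : ℤ} {e e' : Qd 0 1 × Qd 0 1} (h : rd N (sh t e) = rd N (sh t e')) :
    rd N e = rd N e' := by
  unfold rd at h ⊢
  simp only [sh, Prod.mk.injEq] at h ⊢
  obtain ⟨⟨h1, h2⟩, h3, h4⟩ := h
  push_cast at h3 h4
  rw [h1] at h3
  rw [h2] at h4
  exact ⟨⟨h1, h2⟩, add_right_cancel h3, add_right_cancel h4⟩

lemma rd_of_dvd {N : ℕ} {e e' : Qd 0 1 × Qd 0 1} (h : (N : ℤ) ∣ e.1.re - e'.1.re ∧
    (N : ℤ) ∣ e.1.im - e'.1.im ∧ (N : ℤ) ∣ e.2.re - e'.2.re ∧ (N : ℤ) ∣ e.2.im - e'.2.im) :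
    rd N e = rd N e' := by
  have key : ∀ a b : ℤ, (N : ℤ) ∣ a - b → (a : ZMod N) = b := by
    intro a b hab
    have := (ZMod.intCast_zmod_eq_zero_iff_dvd (a - b) N).2 hab
    push_cast at this
    exact sub_eq_zero.1 this
  unfold rd
  rw [key _ _ h.1, key _ _ h.2.1, key _ _ h.2.2.1, key _ _ h.2.2.2]

/-- the pairs for one prime and one shear -/
lemma cnt_l (M n₀ l t : ℕ) (hl : l.Prime) (hl2 : 2 < l)
    (hlM : Nat.Coprime l M) (Y B : ℝ) (hB : 0 ≤ B)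
    (hE : ∀ x₁ y₁ x₂ y₂ : ℤ, (open scoped Classical in
      (((dedge 0 1 Y).filter (fun e => ((M * l ^ 2 : ℕ) : ℤ) ∣ e.1.re - x₁ ∧
        ((M * l ^ 2 : ℕ) : ℤ) ∣ e.1.im - y₁ ∧ ((M * l ^ 2 : ℕ) : ℤ) ∣ e.2.re - x₂ ∧
        ((M * l ^ 2 : ℕ) : ℤ) ∣ e.2.im - y₂)).card : ℝ)) ≤ B)
    (s : Finset (Qd 0 1 × Qd 0 1)) (hs : s ⊆ dedge 0 1 Y)
    (hs2 : ∀ e ∈ s, l ^ 2 ∣ NN (sh t e) ∧ (M : ℤ) ∣ e.1.re - 1 ∧ (M : ℤ) ∣ e.1.im ∧
      (M : ℤ) ∣ e.2.re - (n₀ - t) ∧ (M : ℤ) ∣ e.2.im - 1) :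
    (s.card : ℝ) ≤ ((6 * l ^ 4 : ℕ) : ℝ) * B := by
  classical
  have hlD : ¬ (l : ℤ) ∣ (0 : ℤ) ^ 2 - 4 * 1 := by
    intro h
    have h1 : (l : ℤ) ∣ 4 := by
      have := dvd_neg.2 h
      have e : -((0 : ℤ) ^ 2 - 4 * 1) = 4 := by norm_num
      rwa [e] at this
    have h2 : l ∣ 2 ^ 2 := by exact_mod_cast h1
    have h3 := Nat.le_of_dvd (by norm_num) (hl.dvd_of_dvd_pow h2)
    omega
  obtain ⟨β, hβ, f, hf1, hf2⟩ := classes hD01 hl hlD
  have hcop : IsCoprime (M : ℤ) ((l : ℤ) ^ 2) := by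
    have : Nat.Coprime M (l ^ 2) := Nat.Coprime.pow_right 2 hlM.symm
    have h := Nat.isCoprime_iff_coprime.2 this
    push_cast at h
    exact h
  refine card_le_classes (l := M * l ^ 2) (k := 6 * l ^ 4) s (dedge 0 1 Y) hs
    (fun e => dt e.1 e.2 = 1 ∧ l ^ 2 ∣ NN (sh t e) ∧ (M : ℤ) ∣ e.1.re - 1 ∧ (M : ℤ) ∣ e.1.im ∧
      (M : ℤ) ∣ e.2.re - (n₀ - t) ∧ (M : ℤ) ∣ e.2.im - 1) ?_
    ⟨β, hβ, fun e => f (sh t e), hf1, ?_⟩ B hB hE
  · intro e he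
    have h1 := hs he
    unfold dedge at h1
    rw [mem_filter] at h1
    exact ⟨h1.2, hs2 e he⟩
  · rintro e e' ⟨a0, a1, a2, a3, a4, a5⟩ ⟨b0, b1, b2, b3, b4, b5⟩ hff
    have h1 := hf2 (sh t e) (sh t e') ((dt_sh _ _).trans a0) ((dt_sh _ _).trans b0) a1 b1 hff
    obtain ⟨c1, c2, c3, c4⟩ := rd_dvd (rd_sh h1)
    push_cast at c1 c2 c3 c4
    have key : ∀ x : ℤ, (M : ℤ) ∣ x → (l : ℤ) ^ 2 ∣ x → ((M * l ^ 2 : ℕ) : ℤ) ∣ x := by
      intro x h1 h2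
      push_cast
      exact hcop.mul_dvd h1 h2
    refine rd_of_dvd ⟨key _ ?_ c1, key _ ?_ c2, key _ ?_ c3, key _ ?_ c4⟩
    · have := dvd_sub a2 b2
      have e : e.1.re - 1 - (e'.1.re - 1) = e.1.re - e'.1.re := by ring
      rwa [e] at this
    · exact dvd_sub a3 b3
    · have := dvd_sub a4 b4
      have e : e.2.re - (n₀ - t) - (e'.2.re - (n₀ - t)) = e.2.re - e'.2.re := by ring
      rwa [e] at this
    · have := dvd_sub a5 b5
      have e : e.2.im - 1 - (e'.2.im - 1) = e.2.im - e'.2.im := by ring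
      rwa [e] at this

open scoped Classical in
/-- the count at one scale -/
lemma level (C : ℝ) (hC : 0 < C) (M n₀ P j X : ℕ) (L : ℝ) (hM1 : 1 ≤ M) (hM2 : 2 ∣ M)
    (hPM : ∀ l : ℕ, l.Prime → l ≤ P → l ^ 2 ∣ M) (hPM' : ∀ l : ℕ, l.Prime → P < l → Nat.Coprime l M)
    (hP3 : 3072 * C ≤ P) (hP2 : 2 ≤ P)
    (hn₀ : ∀ l : ℕ, l.Prime → l ≤ P → ¬ l ^ 2 ∣ n₀ ^ 2 + 1) (hj : 6 ≤ j)
    (hX : 2 * M ^ 2 * (32 * M ^ 2 * 4 ^ j) ≤ X)
    (hE : ∀ l : ℕ, l.Prime → P < l → (l : ℝ) ≤ L → ∀ x₁ y₁ x₂ y₂ : ℤ,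
      (((dedge 0 1 (32 * M ^ 2 * 4 ^ j : ℝ)).filter (fun e => ((M * l ^ 2 : ℕ) : ℤ) ∣ e.1.re - x₁ ∧
        ((M * l ^ 2 : ℕ) : ℤ) ∣ e.1.im - y₁ ∧ ((M * l ^ 2 : ℕ) : ℤ) ∣ e.2.re - x₂ ∧
        ((M * l ^ 2 : ℕ) : ℤ) ∣ e.2.im - y₂)).card : ℝ) ≤
        C * (32 * M ^ 2 * 4 ^ j) / ((M * l ^ 2 : ℕ) : ℝ) ^ 3)
    (hLg : (((dedge 0 1 (2 * M ^ 2 * (32 * M ^ 2 * 4 ^ j) : ℝ)).filter (fun e => ∃ l : ℕ,
      l.Prime ∧ L < (l : ℝ) ∧ l ^ 2 ∣ NN e)).card : ℝ) ≤ 4 ^ j / 8) :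
    (4 : ℝ) ^ j / 4 ≤ (((SP X).filter (fun p => Squarefree (p.1 * p.2) ∧
      ∃ n : ℕ, p.1 * p.2 = n ^ 2 + 1 ∧ n ≡ n₀ [MOD M])).card : ℝ) := by
  have hMR : (1 : ℝ) ≤ M := by exact_mod_cast hM1
  have hBm : ∀ p ∈ B M j, 2 ^ j < p.1 ∧ p.1 ≤ 2 ^ (j + 1) ∧ 2 ^ j < p.2 ∧
      p.2 ≤ 2 ^ (j + 1) ∧ Nat.Coprime (1 + M * p.1) (M * p.2) := by
    intro p hp
    unfold B at hp
    rw [mem_filter, mem_product, mem_Ioc, mem_Ioc] at hp
    exact ⟨hp.1.1.1, hp.1.1.2, hp.1.2.1, hp.1.2.2, hp.2⟩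
  have hnorm : ∀ p : ℕ × ℕ, 1 ≤ p.1 → p.1 ≤ 2 ^ (j + 1) → p.2 ≤ 2 ^ (j + 1) →
      nm (vv M p) ≤ 32 * M ^ 2 * 4 ^ j := by
    intro p h0 h1 h2
    rw [nm_vv]
    have h3 : 1 + M * p.1 ≤ 2 * (M * 2 ^ (j + 1)) := by
      have h5 : M * p.1 ≤ M * 2 ^ (j + 1) := Nat.mul_le_mul_left _ h1
      have h6 : 1 * 1 ≤ M * p.1 := Nat.mul_le_mul hM1 h0
      omega
    have h4 : M * p.2 ≤ 2 * (M * 2 ^ (j + 1)) := by
      have := Nat.mul_le_mul_left M h2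
      omega
    calc (1 + M * p.1) ^ 2 + (M * p.2) ^ 2 ≤ (2 * (M * 2 ^ (j + 1))) ^ 2 +
          (2 * (M * 2 ^ (j + 1))) ^ 2 := Nat.add_le_add (Nat.pow_le_pow_left h3 2)
            (Nat.pow_le_pow_left h4 2)
      _ = 32 * M ^ 2 * 4 ^ j := by
          rw [show (4 : ℕ) = 2 ^ 2 by norm_num, ← pow_mul]
          ring
  have hdata : ∀ p : ℕ × ℕ, ∃ (n : ℕ) (w : Qd 0 1), p ∈ B M j → n ≤ nm (vv M p) * M ∧
      n ≡ n₀ [MOD M] ∧ dt (vv M p) w = 1 ∧ ip (vv M p) w = n ∧ (M : ℤ) ∣ w.re - n₀ ∧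
      (M : ℤ) ∣ w.im - 1 ∧ (((1 + M * p.1) ^ 2 + (M * p.2) ^ 2 : ℕ) : ℤ) ∣
        ((1 + M * p.1 : ℕ) : ℤ) + n * (M * p.2 : ℕ) := by
    intro p
    by_cases hp : p ∈ B M j
    · obtain ⟨h3, h4, h5, h6, h7⟩ := hBm p hp
      obtain ⟨n, w, h⟩ := data M n₀ hM1 p (by omega) h7
      exact ⟨n, w, fun _ => h⟩
    · exact ⟨0, 0, fun h => absurd h hp⟩
  choose ν ω hν using hdata
  have hD1 : ∀ p, 1 ≤ nm (vv M p) := by
    intro p
    rw [nm_vv]
    have : 1 ≤ (1 + M * p.1) ^ 2 := Nat.one_le_pow _ _ (by omega)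
    omega
  have hDle : ∀ p ∈ B M j, nm (vv M p) ≤ 32 * M ^ 2 * 4 ^ j := by
    intro p hp
    obtain ⟨h3, h4, h5, h6, h7⟩ := hBm p hp
    exact hnorm p (by omega) h4 h6
  have hmul : ∀ p ∈ B M j, nm (vv M p) * nm (ω p) = ν p ^ 2 + 1 := by
    intro p hp
    obtain ⟨-, -, h3, h4, -⟩ := hν p hp
    have h5 := ip_dt hD01 (vv M p) (ω p)
    rw [h3, h4] at h5
    have h6 : ((nm (vv M p) * nm (ω p) : ℕ) : ℤ) = ((ν p ^ 2 + 1 : ℕ) : ℤ) := by
      push_cast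
      rw [h5]
      ring
    exact_mod_cast h6
  have hw2 : ∀ p ∈ B M j, nm (ω p) ≤ 2 * M ^ 2 * nm (vv M p) := by
    intro p hp
    have h1 := (hν p hp).1
    have h2 := hmul p hp
    have h3 : nm (vv M p) * nm (ω p) ≤ nm (vv M p) * (2 * M ^ 2 * nm (vv M p)) := by
      rw [h2]
      have h4 : ν p ^ 2 ≤ (nm (vv M p) * M) ^ 2 := Nat.pow_le_pow_left h1 2
      have h5 : 1 ≤ (nm (vv M p) * M) ^ 2 := Nat.one_le_pow _ _ (Nat.mul_pos (hD1 p) hM1)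
      calc ν p ^ 2 + 1 ≤ (nm (vv M p) * M) ^ 2 + (nm (vv M p) * M) ^ 2 := Nat.add_le_add h4 h5
        _ = nm (vv M p) * (2 * M ^ 2 * nm (vv M p)) := by ring
    exact Nat.le_of_mul_le_mul_left h3 (hD1 p)
  have hNN : ∀ p ∈ B M j, NN (vv M p, ω p) = ν p ^ 2 + 1 := fun p hp => hmul p hp
  -- the reduced pairs
  obtain ⟨e₁, he₁⟩ : ∃ e₁ : ℕ × ℕ → Qd 0 1 × Qd 0 1, ∀ p, e₁ p =
      sh (-((ν p / nm (vv M p) : ℕ) : ℤ)) (vv M p, ω p) := ⟨_, fun _ => rfl⟩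
  have he₁1 : ∀ p, (e₁ p).1 = vv M p := fun p => by rw [he₁]; rfl
  have he₁inj : ∀ p p', e₁ p = e₁ p' → p = p' := by
    intro p p' h
    have h1 : (e₁ p).1 = (e₁ p').1 := by rw [h]
    rw [he₁1, he₁1] at h1
    exact vv_inj hM1 h1
  have he₁dt : ∀ p ∈ B M j, dt (e₁ p).1 (e₁ p).2 = 1 := by
    intro p hp
    rw [he₁, dt_sh]
    exact (hν p hp).2.2.1
  have he₁nm : ∀ p ∈ B M j, nm (e₁ p).2 ≤ nm (vv M p) := by
    intro p hp
    have h1 := ip_dt hD01 (e₁ p).1 (e₁ p).2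
    rw [he₁dt p hp] at h1
    have h2 : ip (e₁ p).1 (e₁ p).2 = ((ν p % nm (vv M p) : ℕ) : ℤ) := by
      rw [he₁, ip_sh]
      simp only
      rw [(hν p hp).2.2.2.1]
      have h3 := Nat.div_add_mod (ν p) (nm (vv M p))
      have h4 : (ν p : ℤ) = nm (vv M p) * ((ν p / nm (vv M p) : ℕ) : ℤ) +
          ((ν p % nm (vv M p) : ℕ) : ℤ) := by exact_mod_cast h3.symm
      linear_combination h4
    rw [h2, he₁1] at h1
    have h5 : ν p % nm (vv M p) + 1 ≤ nm (vv M p) := Nat.mod_lt _ (hD1 p)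
    have h6 : nm (vv M p) * nm (e₁ p).2 = (ν p % nm (vv M p)) ^ 2 + 1 := by
      have h7 : ((nm (vv M p) * nm (e₁ p).2 : ℕ) : ℤ) =
          (((ν p % nm (vv M p)) ^ 2 + 1 : ℕ) : ℤ) := by
        push_cast at h1 ⊢
        rw [h1]
        ring
      exact_mod_cast h7
    have h8 : nm (vv M p) * nm (e₁ p).2 ≤ nm (vv M p) * nm (vv M p) := by
      rw [h6]
      generalize ν p % nm (vv M p) = r at h5
      nlinarith
    exact Nat.le_of_mul_le_mul_left h8 (hD1 p)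
  have he₁NN : ∀ p ∈ B M j, NN (sh ((ν p / nm (vv M p) : ℕ) : ℤ) (e₁ p)) = ν p ^ 2 + 1 := by
    intro p hp
    rw [he₁, sh_sh]
    exact hNN p hp
  have he₁cl : ∀ p ∈ B M j, (M : ℤ) ∣ (e₁ p).1.re - 1 ∧ (M : ℤ) ∣ (e₁ p).1.im ∧
      (M : ℤ) ∣ (e₁ p).2.re - (n₀ - ((ν p / nm (vv M p) : ℕ) : ℤ)) ∧
      (M : ℤ) ∣ (e₁ p).2.im - 1 := by
    intro p hp
    obtain ⟨-, -, -, -, h5, h6, -⟩ := hν p hp
    rw [he₁]
    simp only [sh, vv]
    refine ⟨⟨p.1, by ring⟩, dvd_mul_right _ _, ?_, ?_⟩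
    · have e : (ω p).re + -((ν p / nm (vv M p) : ℕ) : ℤ) * (1 + M * p.1) -
          (n₀ - ((ν p / nm (vv M p) : ℕ) : ℤ)) =
          ((ω p).re - n₀) - M * (((ν p / nm (vv M p) : ℕ) : ℤ) * p.1) := by ring
      show (M : ℤ) ∣ (ω p).re + -((ν p / nm (vv M p) : ℕ) : ℤ) * (1 + M * p.1) -
          (n₀ - ((ν p / nm (vv M p) : ℕ) : ℤ))
      rw [e]
      exact dvd_sub h5 (dvd_mul_right _ _)
    · have e : (ω p).im + -((ν p / nm (vv M p) : ℕ) : ℤ) * (M * p.2) - 1 =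
          ((ω p).im - 1) - M * (((ν p / nm (vv M p) : ℕ) : ℤ) * p.2) := by ring
      show (M : ℤ) ∣ (ω p).im + -((ν p / nm (vv M p) : ℕ) : ℤ) * (M * p.2) - 1
      rw [e]
      exact dvd_sub h6 (dvd_mul_right _ _)
  have htle : ∀ p ∈ B M j, ν p / nm (vv M p) < M + 1 := by
    intro p hp
    have h1 : ν p / nm (vv M p) ≤ M := Nat.div_le_of_le_mul (hν p hp).1
    omega
  -- the large primes
  set Bad1 := (B M j).filter (fun p => ∃ l : ℕ, l.Prime ∧ L < (l : ℝ) ∧ l ^ 2 ∣ ν p ^ 2 + 1)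
    with hBad1
  have hcast : ∀ p ∈ B M j, (nm (vv M p) : ℝ) ≤ 32 * M ^ 2 * 4 ^ j := by
    intro p hp
    have := hDle p hp
    exact_mod_cast this
  have hcast2 : ∀ p ∈ B M j, (nm (ω p) : ℝ) ≤ 2 * M ^ 2 * (32 * M ^ 2 * 4 ^ j) := by
    intro p hp
    have h1 := (hw2 p hp).trans (Nat.mul_le_mul_left _ (hDle p hp))
    exact_mod_cast h1
  have hYY : (32 * (M : ℝ) ^ 2 * 4 ^ j) ≤ 2 * M ^ 2 * (32 * M ^ 2 * 4 ^ j) := by
    have h1 : (1 : ℝ) ≤ 2 * M ^ 2 := by nlinarith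
    exact le_mul_of_one_le_left (by positivity) h1
  have hb1 : (Bad1.card : ℝ) ≤ 4 ^ j / 8 := by
    refine le_trans ?_ hLg
    have h1 : Bad1.card ≤ ((dedge 0 1 (2 * M ^ 2 * (32 * M ^ 2 * 4 ^ j) : ℝ)).filter
        (fun e => ∃ l : ℕ, l.Prime ∧ L < (l : ℝ) ∧ l ^ 2 ∣ NN e)).card := by
      refine card_le_card_of_injOn (fun p => (vv M p, ω p)) ?_ ?_
      · intro p hp
        have hp' : p ∈ Bad1 := hp
        rw [hBad1, mem_filter] at hp'
        obtain ⟨hpB, l, hl, hl2, hl3⟩ := hp'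
        have hdt := (hν p hpB).2.2.1
        rw [mem_coe, mem_filter]
        refine ⟨?_, l, hl, hl2, by rw [hNN p hpB]; exact hl3⟩
        unfold dedge
        rw [mem_filter, mem_product, mem_pball hD01, mem_pball hD01]
        exact ⟨⟨⟨(prim_of_dt hdt).1, (hcast p hpB).trans hYY⟩, (prim_of_dt hdt).2,
          hcast2 p hpB⟩, hdt⟩
      · intro p _ p' _ h
        simp only [Prod.mk.injEq] at h
        exact vv_inj hM1 h.1
    exact_mod_cast h1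
  -- the primes of medium size
  set Bl : ℕ → ℕ → Finset (ℕ × ℕ) := fun l t =>
    (B M j).filter (fun p => l ^ 2 ∣ ν p ^ 2 + 1 ∧ ν p / nm (vv M p) = t) with hBl
  have hMpos : (0 : ℝ) < M := by linarith
  have hbl : ∀ l : ℕ, l.Prime → P < l → (l : ℝ) ≤ L → ∀ t : ℕ, ((Bl l t).card : ℝ) ≤
      ((6 * l ^ 4 : ℕ) : ℝ) * (C * (32 * M ^ 2 * 4 ^ j) / ((M * l ^ 2 : ℕ) : ℝ) ^ 3) := by
    intro l hl hPl hlL t
    have hcard : (Bl l t).card = ((Bl l t).image e₁).card := by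
      rw [card_image_of_injective]
      intro p p' h
      exact he₁inj p p' h
    rw [hcard]
    refine cnt_l M n₀ l t hl (by omega) (hPM' l hl hPl) (32 * M ^ 2 * 4 ^ j : ℝ) _
      (by positivity) (fun x₁ y₁ x₂ y₂ => hE l hl hPl hlL x₁ y₁ x₂ y₂) _ ?_ ?_
    · intro e he
      rw [mem_image] at he
      obtain ⟨p, hp, rfl⟩ := he
      rw [hBl, mem_filter] at hp
      have hpB := hp.1
      have hdt := he₁dt p hpB
      unfold dedge
      rw [mem_filter, mem_product, mem_pball hD01, mem_pball hD01]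
      refine ⟨⟨⟨(prim_of_dt hdt).1, ?_⟩, (prim_of_dt hdt).2, ?_⟩, hdt⟩
      · rw [he₁1]
        exact hcast p hpB
      · have h1 : (nm (e₁ p).2 : ℝ) ≤ nm (vv M p) := by exact_mod_cast he₁nm p hpB
        exact h1.trans (hcast p hpB)
    · intro e he
      rw [mem_image] at he
      obtain ⟨p, hp, rfl⟩ := he
      rw [hBl, mem_filter] at hp
      obtain ⟨hpB, h1, h2⟩ := hp
      have h3 := he₁NN p hpB
      have h4 := he₁cl p hpB
      rw [h2] at h3 h4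
      rw [h3]
      exact ⟨h1, h4⟩
  have hbl2 : ∀ l : ℕ, l.Prime → P < l → (l : ℝ) ≤ L →
      (((range (M + 1)).biUnion (Bl l)).card : ℝ) ≤ 384 * C * 4 ^ j * (1 / (l : ℝ) ^ 2) := by
    intro l hl hPl hlL
    have hl0 : (0 : ℝ) < l := by exact_mod_cast hl.pos
    have h1 : (((range (M + 1)).biUnion (Bl l)).card : ℝ) ≤
        ∑ t ∈ range (M + 1), ((Bl l t).card : ℝ) := by exact_mod_cast card_biUnion_le
    refine h1.trans ((sum_le_sum fun t _ => hbl l hl hPl hlL t).trans ?_)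
    rw [sum_const, card_range, nsmul_eq_mul]
    have h2 : ((6 * l ^ 4 : ℕ) : ℝ) * (C * (32 * M ^ 2 * 4 ^ j) / ((M * l ^ 2 : ℕ) : ℝ) ^ 3) =
        192 * C * 4 ^ j * (1 / (l : ℝ) ^ 2) / M := by
      push_cast
      field_simp
      ring
    rw [h2]
    have h3 : (((M + 1 : ℕ) : ℕ) : ℝ) ≤ 2 * M := by push_cast; linarith
    calc (((M + 1 : ℕ) : ℕ) : ℝ) * (192 * C * 4 ^ j * (1 / (l : ℝ) ^ 2) / M) ≤
        2 * M * (192 * C * 4 ^ j * (1 / (l : ℝ) ^ 2) / M) :=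
          mul_le_mul_of_nonneg_right h3 (by positivity)
      _ = 384 * C * 4 ^ j * (1 / (l : ℝ) ^ 2) := by
          field_simp
          ring
  set LL : Finset ℕ := (Ioc P ⌊L⌋₊).filter (fun l => l.Prime) with hLL
  have hLLm : ∀ l ∈ LL, l.Prime ∧ P < l ∧ (l : ℝ) ≤ L := by
    intro l hl
    rw [hLL, mem_filter, mem_Ioc] at hl
    refine ⟨hl.2, hl.1.1, ?_⟩
    have h1 : l ≠ 0 := hl.2.ne_zero
    exact (Nat.le_floor_iff' h1).1 hl.1.2
  set Bad2 := LL.biUnion (fun l => (range (M + 1)).biUnion (Bl l)) with hBad2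
  have hb2 : (Bad2.card : ℝ) ≤ 4 ^ j / 8 := by
    have h1 : (Bad2.card : ℝ) ≤ ∑ l ∈ LL, (((range (M + 1)).biUnion (Bl l)).card : ℝ) := by
      exact_mod_cast card_biUnion_le
    refine h1.trans ((sum_le_sum fun l hl => hbl2 l (hLLm l hl).1 (hLLm l hl).2.1
      (hLLm l hl).2.2).trans ?_)
    rw [← mul_sum]
    have h2 := tail_all P (by omega) LL fun l hl => (hLLm l hl).2.1
    have hP0 : (0 : ℝ) < P := by exact_mod_cast (by omega : 0 < P)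
    calc 384 * C * 4 ^ j * ∑ l ∈ LL, 1 / (l : ℝ) ^ 2 ≤ 384 * C * 4 ^ j * (1 / (P : ℝ)) :=
          mul_le_mul_of_nonneg_left h2 (by positivity)
      _ ≤ 4 ^ j / 8 := by
          rw [mul_one_div, div_le_div_iff₀ hP0 (by norm_num)]
          have : (0 : ℝ) < 4 ^ j := by positivity
          nlinarith
  -- the good points
  set G := (B M j).filter (fun p => Squarefree (ν p ^ 2 + 1)) with hG
  have hcov : B M j ⊆ G ∪ (Bad1 ∪ Bad2) := by
    intro p hp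
    by_cases hsq : Squarefree (ν p ^ 2 + 1)
    · exact mem_union_left _ (mem_filter.2 ⟨hp, hsq⟩)
    · apply mem_union_right
      rw [Nat.squarefree_iff_prime_squarefree] at hsq
      push Not at hsq
      obtain ⟨l, hl, hl2⟩ := hsq
      rw [← pow_two] at hl2
      have hPl : P < l := by
        by_contra hc
        have hc' : l ≤ P := not_lt.1 hc
        have h1 := (hν p hp).2.1
        have h2 : ν p ^ 2 + 1 ≡ n₀ ^ 2 + 1 [MOD l ^ 2] :=
          ((h1.of_dvd (hPM l hl hc')).pow 2).add_right 1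
        exact hn₀ l hl hc' ((h2.dvd_iff dvd_rfl).1 hl2)
      by_cases hlL : L < (l : ℝ)
      · exact mem_union_left _ (mem_filter.2 ⟨hp, l, hl, hlL, hl2⟩)
      · apply mem_union_right
        rw [hBad2, mem_biUnion]
        refine ⟨l, ?_, ?_⟩
        · rw [hLL, mem_filter, mem_Ioc]
          exact ⟨⟨hPl, Nat.le_floor (not_lt.1 hlL)⟩, hl⟩
        · rw [mem_biUnion]
          refine ⟨ν p / nm (vv M p), mem_range.2 (htle p hp), ?_⟩
          rw [hBl, mem_filter]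
          exact ⟨hp, hl2, rfl⟩
  have hcB := card_B M j hM2 hj
  have hGcard : (4 : ℝ) ^ j / 4 ≤ (G.card : ℝ) := by
    have h1 := (card_le_card hcov).trans (card_union_le _ _)
    have h2 := card_union_le Bad1 Bad2
    have h3 : ((B M j).card : ℝ) ≤ G.card + (Bad1.card + Bad2.card) := by
      exact_mod_cast h1.trans (Nat.add_le_add_left h2 _)
    linarith
  refine hGcard.trans ?_
  have hfin : G.card ≤ ((SP X).filter (fun p => Squarefree (p.1 * p.2) ∧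
      ∃ n : ℕ, p.1 * p.2 = n ^ 2 + 1 ∧ n ≡ n₀ [MOD M])).card := by
    refine card_le_card_of_injOn (fun p => (nm (vv M p), nm (ω p))) ?_ ?_
    · intro p hp
      have hp' : p ∈ G := hp
      rw [hG, mem_filter] at hp'
      obtain ⟨hpB, hsq⟩ := hp'
      have hm := hmul p hpB
      rw [mem_coe, mem_filter]
      have hYX : 32 * M ^ 2 * 4 ^ j ≤ X := by
        refine le_trans ?_ hX
        have h1 : 1 ≤ 2 * M ^ 2 := by nlinarith
        exact Nat.le_mul_of_pos_left _ h1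
      have hw1 : 1 ≤ nm (ω p) := by
        by_contra hc
        have h0 : nm (ω p) = 0 := by omega
        rw [h0, mul_zero] at hm
        omega
      refine ⟨?_, ?_, ν p, hm, (hν p hpB).2.1⟩
      · unfold SP
        rw [mem_filter, mem_product, mem_Icc, mem_Icc]
        refine ⟨⟨⟨hD1 p, (hDle p hpB).trans hYX⟩, hw1, ?_⟩, ν p, hm⟩
        exact ((hw2 p hpB).trans (Nat.mul_le_mul_left _ (hDle p hpB))).trans hX
      · simp only
        rw [hm]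
        exact hsq
    · intro p hp p' hp' h
      have hp1 : p ∈ G := hp
      have hp1' : p' ∈ G := hp'
      rw [hG, mem_filter] at hp1 hp1'
      obtain ⟨h3, h4, h5, h6, h7⟩ := hBm p hp1.1
      obtain ⟨h3', h4', h5', h6', h7'⟩ := hBm p' hp1'.1
      simp only [Prod.mk.injEq] at h
      obtain ⟨e1, e2⟩ := h
      have k1 := hmul p hp1.1
      have k2 := hmul p' hp1'.1
      rw [e1, e2] at k1
      have e3 : ν p ^ 2 = ν p' ^ 2 := by omega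
      have e4 : ν p = ν p' := Nat.pow_left_injective (n := 2) (by norm_num) e3
      obtain ⟨-, -, -, -, -, -, g5⟩ := hν p hp1.1
      obtain ⟨-, -, -, -, -, -, g5'⟩ := hν p' hp1'.1
      rw [← e4] at g5'
      rw [nm_vv, nm_vv] at e1
      obtain ⟨k1, k2⟩ := inj (1 + M * p.1) (M * p.2) (1 + M * p'.1) (M * p'.2) (ν p) (by omega)
        (Nat.mul_pos hM1 (by omega)) (by omega) (Nat.mul_pos hM1 (by omega)) h7 h7' e1 g5 g5'
      have k3 : M * p.1 = M * p'.1 := by omega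
      exact Prod.ext (Nat.eq_of_mul_eq_mul_left hM1 k3) (Nat.eq_of_mul_eq_mul_left hM1 k2)
  exact_mod_cast hfin

/-- SPS, from the equidistribution of the pairs in residue classes and the bound for large primes -/
theorem sps_of (hEQU : S_EQU 0 1) (hLARGE : S_LARGE 0 1) : S_SPS := by
  classical
  intro q a hq hqa
  obtain ⟨C, hC, hE⟩ := hEQU
  obtain ⟨A, hLg⟩ := hLARGE
  obtain ⟨P, hP⟩ := exists_nat_ge (max (3072 * C) (max (2 : ℝ) q))
  have hP3 : 3072 * C ≤ P := (le_max_left _ _).trans hP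
  have hP2 : 2 ≤ P := by
    have : (2 : ℝ) ≤ P := ((le_max_left _ _).trans (le_max_right _ _)).trans hP
    exact_mod_cast this
  have hPq : q ≤ P := by
    have : (q : ℝ) ≤ P := ((le_max_right _ _).trans (le_max_right _ _)).trans hP
    exact_mod_cast this
  obtain ⟨n₀, hn1, hn2⟩ := choice q a hqa P
  obtain ⟨M, hM⟩ : ∃ M : ℕ, M = q * P.factorial ^ 2 := ⟨_, rfl⟩
  have hM1 : 1 ≤ M := by
    rw [hM]
    have : 0 < P.factorial := Nat.factorial_pos P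
    have : 0 < q * P.factorial ^ 2 := by positivity
    omega
  have hM2 : 2 ∣ M := by
    rw [hM]
    exact ((Nat.dvd_factorial (by norm_num) hP2).trans (dvd_pow_self _ two_ne_zero)).mul_left _
  have hPM : ∀ l : ℕ, l.Prime → l ≤ P → l ^ 2 ∣ M := by
    intro l hl hlP
    rw [hM]
    exact (pow_dvd_pow_of_dvd (Nat.dvd_factorial hl.pos hlP) 2).mul_left _
  have hPM' : ∀ l : ℕ, l.Prime → P < l → Nat.Coprime l M := by
    intro l hl hlP
    rw [Nat.Prime.coprime_iff_not_dvd hl, hM]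
    intro h
    rcases (Nat.Prime.dvd_mul hl).1 h with h | h
    · have := Nat.le_of_dvd hq h
      omega
    · have := (Nat.Prime.dvd_factorial hl).1 (hl.dvd_of_dvd_pow h)
      omega
  have hqM : q ∣ M := by rw [hM]; exact dvd_mul_right _ _
  have hMR : (1 : ℝ) ≤ M := by exact_mod_cast hM1
  obtain ⟨X₁, hX₁⟩ := hE (2 * A + 1)
  obtain ⟨X₂, hX₂⟩ := hLg (1 / (8 * (2 * (M : ℝ) ^ 2 * (32 * M ^ 2)))) (by positivity)
  obtain ⟨W, hW⟩ : ∃ W : ℕ, W = 2 * M ^ 2 * (32 * M ^ 2) := ⟨_, rfl⟩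
  have hW1 : 1 ≤ W := by
    rw [hW]
    have : 0 < M := hM1
    have : 0 < 2 * M ^ 2 * (32 * M ^ 2) := by positivity
    omega
  have hWR : (W : ℝ) = 2 * (M : ℝ) ^ 2 * (32 * M ^ 2) := by rw [hW]; push_cast; ring
  obtain ⟨J₁, hJ₁⟩ := pow_unbounded_of_one_lt
    (max (max X₁ X₂) (max (Real.exp (M * 4 ^ A)) (2 * (M : ℝ) ^ 2))) (show (1 : ℝ) < 4 by norm_num)
  set J := max 6 J₁ with hJ
  refine ⟨1 / (16 * W), by positivity, 4 ^ J * W, fun X hX => ?_⟩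
  set j := Nat.log 4 (X / W) with hj
  have hX' : 4 ^ J ≤ X / W := (Nat.le_div_iff_mul_le hW1).2 hX
  have hjJ : J ≤ j := by
    rw [hj]
    exact Nat.le_log_of_pow_le (by norm_num) hX'
  have hj6 : 6 ≤ j := (le_max_left _ _).trans hjJ
  have hjX : 4 ^ j * W ≤ X := by
    refine (Nat.le_div_iff_mul_le hW1).1 (Nat.pow_log_le_self 4 ?_)
    have : 0 < 4 ^ J := by positivity
    omega
  have hjlow : (X : ℝ) ≤ (4 : ℝ) ^ (j + 1) * W := by
    have h1 : X / W < 4 ^ (j + 1) := Nat.lt_pow_succ_log_self (by norm_num) _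
    have h2 : X < 4 ^ (j + 1) * W := (Nat.div_lt_iff_lt_mul hW1).1 h1
    exact_mod_cast h2.le
  obtain ⟨Y, hY⟩ : ∃ Y : ℝ, Y = 32 * (M : ℝ) ^ 2 * 4 ^ j := ⟨_, rfl⟩
  have h4j : (4 : ℝ) ^ J₁ ≤ 4 ^ j :=
    pow_le_pow_right₀ (by norm_num) ((le_max_right _ _).trans hjJ)
  have hYj : (4 : ℝ) ^ j ≤ Y := by
    rw [hY]
    have h1 : (1 : ℝ) ≤ 32 * M ^ 2 := by nlinarith
    exact le_mul_of_one_le_left (by positivity) h1
  have hYbig := (hJ₁.le.trans h4j).trans hYj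
  have hYX1 : X₁ ≤ Y := ((le_max_left _ _).trans (le_max_left _ _)).trans hYbig
  have hYX2 : X₂ ≤ Y := ((le_max_right _ _).trans (le_max_left _ _)).trans hYbig
  have hYe : Real.exp (M * 4 ^ A) ≤ Y := ((le_max_left _ _).trans (le_max_right _ _)).trans hYbig
  have hYM : 2 * (M : ℝ) ^ 2 ≤ Y := ((le_max_right _ _).trans (le_max_right _ _)).trans hYbig
  have hY0 : 0 < Y := (Real.exp_pos _).trans_le hYe
  have hlogY : (M : ℝ) * 4 ^ A ≤ Real.log Y := by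
    rw [Real.le_log_iff_exp_le hY0]
    exact hYe
  have hlogY0 : 0 ≤ Real.log Y := le_trans (by positivity) hlogY
  have hY1 : 1 ≤ 2 * (M : ℝ) ^ 2 := by nlinarith
  have hlogX' : Real.log (2 * (M : ℝ) ^ 2 * Y) ≤ 2 * Real.log Y := by
    rw [Real.log_mul (by positivity) hY0.ne']
    have := Real.log_le_log (by positivity) hYM
    linarith
  have hlogX'0 : 0 ≤ Real.log (2 * (M : ℝ) ^ 2 * Y) := by
    apply Real.log_nonneg
    have h1 : 1 ≤ Y := hY1.trans hYM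
    nlinarith
  have hlev := level C hC M n₀ P j X (Real.log (2 * (M : ℝ) ^ 2 * Y) ^ A) hM1 hM2 hPM hPM' hP3
    hP2 hn2 hj6 (by
      refine le_trans (le_of_eq ?_) hjX
      rw [hW]
      ring) (by
      intro l hl hPl hlL x₁ y₁ x₂ y₂
      have h := hX₁ Y (M * l ^ 2) x₁ y₁ x₂ y₂ hYX1 (Nat.mul_pos hM1 (by
        have := hl.pos
        positivity)) (by
        push_cast
        have h1 : (l : ℝ) ^ 2 ≤ (4 ^ A) * Real.log Y ^ (2 * A) := by
          calc (l : ℝ) ^ 2 ≤ (Real.log (2 * (M : ℝ) ^ 2 * Y) ^ A) ^ 2 :=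
                pow_le_pow_left₀ (by positivity) hlL 2
            _ ≤ ((2 * Real.log Y) ^ A) ^ 2 :=
                pow_le_pow_left₀ (by positivity) (pow_le_pow_left₀ hlogX'0 hlogX' A) 2
            _ = (4 ^ A) * Real.log Y ^ (2 * A) := by
                rw [← pow_mul, mul_pow, mul_comm A 2, pow_mul (2 : ℝ)]
                norm_num
        calc (M : ℝ) * l ^ 2 ≤ M * ((4 ^ A) * Real.log Y ^ (2 * A)) :=
              mul_le_mul_of_nonneg_left h1 (by positivity)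
          _ = (M * 4 ^ A) * Real.log Y ^ (2 * A) := by ring
          _ ≤ Real.log Y * Real.log Y ^ (2 * A) :=
              mul_le_mul_of_nonneg_right hlogY (by positivity)
          _ = Real.log Y ^ (2 * A + 1) := by ring)
      rw [hY] at h
      exact h) (by
      have h := hX₂ (2 * (M : ℝ) ^ 2 * Y) (hYX2.trans (le_mul_of_one_le_left hY0.le hY1))
      rw [hY] at h ⊢
      refine h.trans (le_of_eq ?_)
      field_simp)
  have hmono : (((SP X).filter (fun p => Squarefree (p.1 * p.2) ∧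
      ∃ n : ℕ, p.1 * p.2 = n ^ 2 + 1 ∧ n ≡ n₀ [MOD M])).card : ℝ) ≤
      (((SP X).filter (fun p => Squarefree (p.1 * p.2) ∧
      ∃ n : ℕ, p.1 * p.2 = n ^ 2 + 1 ∧ n ≡ a [MOD q])).card : ℝ) := by
    have h1 : (SP X).filter (fun p => Squarefree (p.1 * p.2) ∧
      ∃ n : ℕ, p.1 * p.2 = n ^ 2 + 1 ∧ n ≡ n₀ [MOD M]) ⊆
      (SP X).filter (fun p => Squarefree (p.1 * p.2) ∧
      ∃ n : ℕ, p.1 * p.2 = n ^ 2 + 1 ∧ n ≡ a [MOD q]) := by
      intro p hp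
      rw [mem_filter] at hp ⊢
      obtain ⟨h1, h2, n, h3, h4⟩ := hp
      exact ⟨h1, h2, n, h3, (h4.of_dvd hqM).trans hn1⟩
    exact_mod_cast card_le_card h1
  refine le_trans ?_ (hlev.trans hmono)
  have hWpos : (0 : ℝ) < W := by exact_mod_cast hW1
  calc 1 / (16 * (W : ℝ)) * X ≤ 1 / (16 * (W : ℝ)) * ((4 : ℝ) ^ (j + 1) * W) :=
        mul_le_mul_of_nonneg_left hjlow (by positivity)
    _ = 4 ^ j / 4 := by
        rw [pow_succ]
        field_simp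
        ring

end Pool.Agent.W935.EX
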